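import Pool.Agent.H62.Mad1

set_option autoImplicit false

namespace Pool.Agent.Results.MP_054fd8_lc.Exists

/-- the infinite paths through a binary tree -/
def paths (T : Set (List Bool)) : Set (ℕ → Bool) := {x | ∀ n, (List.range n).map x ∈ T}

/-- A computable binary tree whose computable paths are pairwise almost disjoint, meet every
infinite computable set infinitely often, and include infinitely many infinite sets. -/
theorem result : ∃ T : Set (List Bool), ComputablePred (· ∈ T) ∧
    (∀ σ τ, τ <+: σ → σ ∈ T → τ ∈ T) ∧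
    (∀ x ∈ paths T, ∀ y ∈ paths T, Computable x → Computable y → x ≠ y →
      {n | x n = true ∧ y n = true}.Finite) ∧
    (∀ r : ℕ → Bool, Computable r → {n | r n = true}.Infinite →
      ∃ x ∈ paths T, Computable x ∧ {n | x n = true ∧ r n = true}.Infinite) ∧
    {x ∈ paths T | Computable x ∧ {n | x n = true}.Infinite}.Infinite := by
  obtain ⟨T, h1, h2, h3⟩ := Pool.Agent.H62.Mad.main
  refine ⟨T, h1, h2, fun x hx y hy => Pool.Agent.H62.Mad.ad' ((h3 x).1 hx) ((h3 y).1 hy),
    fun r hr hi => ?_, Pool.Agent.H62.Mad.inf_many.mono fun x hx => ⟨(h3 x).2 hx.1, hx.2⟩⟩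
  obtain ⟨x, a, b⟩ := Pool.Agent.H62.Mad.maxi' hr hi
  exact ⟨x, (h3 x).2 a, b⟩

end Pool.Agent.Results.MP_054fd8_lc.Exists
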